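import Mathlib

/-!
# Reflexivity of bisymmetric operations need not propagate

On `I = [0, ∞)` the operation `F x y = ⌊x⌋ + ⌊y⌋ + (fract x + fract y) / 2` is bisymmetric, symmetric
and strictly increasing in each variable, it is reflexive at every point of `[0, 1)` and at no other
point of `I`.
-/

set_option autoImplicit false

namespace Pool.Agent.Results.MP_a2bf4b_an.LocalReflexivity

/-- A nondegenerate interval: an order-connected set of reals with more than one point. -/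
def IsInterval (I : Set ℝ) : Prop := I.OrdConnected ∧ I.Nontrivial

/-- `F` maps `I × I` into `I`. -/
def MapsInto (I : Set ℝ) (F : ℝ → ℝ → ℝ) : Prop := ∀ x ∈ I, ∀ y ∈ I, F x y ∈ I

/-- `F` is bisymmetric on `I`. -/
def Bisymmetric (I : Set ℝ) (F : ℝ → ℝ → ℝ) : Prop :=
  ∀ x ∈ I, ∀ y ∈ I, ∀ u ∈ I, ∀ v ∈ I, F (F x y) (F u v) = F (F x u) (F y v)

/-- `F` is symmetric on `I`. -/
def SymmetricOn (I : Set ℝ) (F : ℝ → ℝ → ℝ) : Prop := ∀ x ∈ I, ∀ y ∈ I, F x y = F y x

/-- `F` is strictly increasing in each variable on `I`. -/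
def PartiallyIncreasing (I : Set ℝ) (F : ℝ → ℝ → ℝ) : Prop :=
  (∀ y ∈ I, StrictMonoOn (fun x => F x y) I) ∧ (∀ x ∈ I, StrictMonoOn (fun y => F x y) I)

/-- The operation. -/
noncomputable def op (x y : ℝ) : ℝ := (⌊x⌋ : ℝ) + (⌊y⌋ : ℝ) + (Int.fract x + Int.fract y) / 2

theorem floor_op (x y : ℝ) : ⌊op x y⌋ = ⌊x⌋ + ⌊y⌋ := by
  rw [Int.floor_eq_iff]
  have h1 := Int.fract_nonneg x
  have h2 := Int.fract_nonneg y
  have h3 := Int.fract_lt_one x
  have h4 := Int.fract_lt_one y
  unfold op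
  push_cast
  constructor <;> linarith

theorem fract_op (x y : ℝ) : Int.fract (op x y) = (Int.fract x + Int.fract y) / 2 := by
  have h : Int.fract (op x y) = op x y - ⌊op x y⌋ := rfl
  rw [h, floor_op]
  unfold op
  push_cast
  ring

theorem op_comm (x y : ℝ) : op x y = op y x := by
  unfold op
  ring

theorem op_bisymm (x y u v : ℝ) : op (op x y) (op u v) = op (op x u) (op y v) := by
  have h : ∀ a b : ℝ, op a b = (⌊a⌋ : ℝ) + (⌊b⌋ : ℝ) + (Int.fract a + Int.fract b) / 2 := fun _ _ => rfl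
  rw [h (op x y), h (op x u)]
  rw [floor_op, floor_op, floor_op, floor_op, fract_op, fract_op, fract_op, fract_op]
  push_cast
  ring

theorem op_strictMono (y : ℝ) : StrictMono (fun x => op x y) := by
  intro a b hab
  simp only [op]
  have h1 := Int.fract_nonneg b
  have h2 := Int.fract_lt_one a
  have h3 := Int.floor_add_fract a
  have h4 := Int.floor_add_fract b
  rcases lt_or_eq_of_le (Int.floor_mono hab.le) with h | h
  · have h5 : (⌊a⌋ : ℝ) + 1 ≤ ⌊b⌋ := by exact_mod_cast h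
    linarith
  · have h5 : (⌊a⌋ : ℝ) = ⌊b⌋ := by exact_mod_cast h
    linarith

theorem op_refl_iff {x : ℝ} (hx : 0 ≤ x) : op x x = x ↔ x < 1 := by
  have h3 := Int.floor_add_fract x
  have h0 : (0 : ℤ) ≤ ⌊x⌋ := Int.floor_nonneg.mpr hx
  constructor
  · intro h
    unfold op at h
    have h5 : (⌊x⌋ : ℝ) = 0 := by linarith
    have h6 := Int.fract_lt_one x
    linarith
  · intro h
    have h5 : ⌊x⌋ = 0 := by
      rw [Int.floor_eq_iff]
      simpa using ⟨hx, h⟩
    have h6 : (⌊x⌋ : ℝ) = 0 := by exact_mod_cast h5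
    unfold op
    linarith

/-- There are an interval `I`, a bisymmetric, symmetric, partially strictly increasing operation `F`
on `I` and a proper subinterval `J` of `I` with more than one point such that `F` is reflexive on `J`
but not at some point of `I`. -/
theorem result : ∃ (I J : Set ℝ) (F : ℝ → ℝ → ℝ),
    IsInterval I ∧ IsInterval J ∧ J ⊂ I ∧ MapsInto I F ∧ Bisymmetric I F ∧ SymmetricOn I F ∧
    PartiallyIncreasing I F ∧ (∀ x ∈ J, F x x = x) ∧ ∃ x₀ ∈ I, F x₀ x₀ ≠ x₀ := by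
  refine ⟨Set.Ici 0, Set.Ico 0 1, op, ⟨Set.ordConnected_Ici, ⟨0, by simp, 1, by simp, by norm_num⟩⟩,
    ⟨Set.ordConnected_Ico, ⟨0, by simp, 1 / 2, by norm_num, by norm_num⟩⟩, ?_, ?_, ?_, ?_, ⟨?_, ?_⟩, ?_, ?_⟩
  · refine ⟨fun x hx => hx.1, fun h => ?_⟩
    have : (1 : ℝ) ∈ Set.Ico (0 : ℝ) 1 := h (by simp)
    simp at this
  · intro x hx y hy
    have h1 : (0 : ℤ) ≤ ⌊x⌋ := Int.floor_nonneg.mpr hx
    have h2 : (0 : ℤ) ≤ ⌊y⌋ := Int.floor_nonneg.mpr hy
    have h3 : (0 : ℝ) ≤ (⌊x⌋ : ℝ) := by exact_mod_cast h1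
    have h4 : (0 : ℝ) ≤ (⌊y⌋ : ℝ) := by exact_mod_cast h2
    have h5 := Int.fract_nonneg x
    have h6 := Int.fract_nonneg y
    show (0 : ℝ) ≤ op x y
    unfold op
    linarith
  · intro x _ y _ u _ v _
    exact op_bisymm x y u v
  · intro x _ y _
    exact op_comm x y
  · intro y _
    exact (op_strictMono y).strictMonoOn _
  · intro x _
    have : (fun y => op x y) = fun y => op y x := by
      ext y
      exact op_comm x y
    rw [this]
    exact (op_strictMono x).strictMonoOn _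
  · intro x hx
    exact (op_refl_iff hx.1).mpr hx.2
  · refine ⟨1, by simp, fun h => ?_⟩
    have := (op_refl_iff (x := 1) zero_le_one).mp h
    simp at this

end Pool.Agent.Results.MP_a2bf4b_an.LocalReflexivity
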